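import Mathlib
import Pool.Agent.W872.SV.Stm

set_option autoImplicit false

namespace Pool.Agent.W911.SV
open Finset W872.SV

theorem main : W872.SV.PartCASE := by
  classical
  intro n M G v hM hv h
  by_cases hA : ∃ i j : Fin n, ∃ φ, Rel G i (v i) j (v j) φ ∧ M < mv φ
  · left
    obtain ⟨i, j, φ, h1, h2⟩ := hA
    simp only [setA, Finset.mem_filter, Finset.mem_univ, true_and]
    exact ⟨i, v i, j, v j, φ, h1, h2⟩
  · right
    push Not at hA
    simp only [setB, Finset.mem_filter, Finset.mem_univ, true_and]
    have hn : 0 < n := by omega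
    refine ⟨⟨0, hn⟩, v ⟨0, hn⟩, ?_⟩
    generalize (⟨0, hn⟩ : Fin n) = i0
    intro i hi0 hi1
    obtain ⟨φ, hφ⟩ := h i0 i
    have hm := hA i0 i φ hφ
    have hm' : (univ.filter fun x => φ x ≠ x).card ≤ M := by
      unfold mv at hm
      convert hm
    have hne : φ i ≠ i := by
      intro hfix
      have hex : ∃ x, x ∉ (univ.filter fun x => φ x ≠ x) ∪ ({i, i0, v i0, v i} : Finset (Fin n)) := by
        by_contra hcon
        push Not at hcon
        have h1 : (univ : Finset (Fin n)).card ≤
            ((univ.filter fun x => φ x ≠ x) ∪ ({i, i0, v i0, v i} : Finset (Fin n))).card :=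
          Finset.card_le_card (fun x _ => hcon x)
        have h2 := Finset.card_union_le (univ.filter fun x => φ x ≠ x)
          ({i, i0, v i0, v i} : Finset (Fin n))
        have h3 : ({i, i0, v i0, v i} : Finset (Fin n)).card ≤ 4 := Finset.card_le_four
        simp only [Finset.card_univ, Fintype.card_fin] at h1
        omega
      obtain ⟨x, hx⟩ := hex
      simp only [Finset.mem_union, Finset.mem_filter, Finset.mem_univ, true_and,
        Finset.mem_insert, Finset.mem_singleton, not_or, not_not] at hx
      obtain ⟨hx0, hx1, hx2, hx3, hx4⟩ := hx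
      have hr := hφ i x (Ne.symm hx1)
      rw [hfix, hx0] at hr
      have c1 : ¬ Cut i0 (v i0) i x := by
        unfold Cut
        tauto
      have c2 : Cut i (v i) i x := by
        unfold Cut
        tauto
      tauto
    have hj : φ.symm i ≠ i := by
      intro hji
      apply hne
      rw [Equiv.symm_apply_eq] at hji
      exact hji.symm
    have hjφ : φ (φ.symm i) = i := φ.apply_symm_apply i
    refine ⟨φ.symm i, hj, decide (φ.symm i = i0 ∨ φ.symm i = v i0), ?_⟩
    generalize hjj : φ.symm i = j at *
    have hsub : (univ.filter fun x => ¬ ((G.Adj i x ↔ G.Adj j x) ↔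
        decide (j = i0 ∨ j = v i0) = true)) ⊆
        (univ.filter fun x => φ x ≠ x) ∪ ({i0, v i0, i, v i, j} : Finset (Fin n)) := by
      intro x hx
      by_contra hcon
      simp only [Finset.mem_union, Finset.mem_filter, Finset.mem_univ, true_and,
        Finset.mem_insert, Finset.mem_singleton, not_or, not_not] at hcon
      obtain ⟨hx0, hx1, hx2, hx3, hx4, hx5⟩ := hcon
      simp only [Finset.mem_filter, Finset.mem_univ, true_and, decide_eq_true_eq] at hx
      have hr := hφ j x (Ne.symm hx5)
      rw [hjφ, hx0] at hr
      have c1 : Cut i0 (v i0) j x ↔ (j = i0 ∨ j = v i0) := by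
        unfold Cut
        tauto
      have c2 : Cut i (v i) i x := by
        unfold Cut
        tauto
      rw [c1] at hr
      tauto
    have h5 : ({i0, v i0, i, v i, j} : Finset (Fin n)).card ≤ 5 := Finset.card_le_five
    have h6 := Finset.card_union_le (univ.filter fun x => φ x ≠ x)
      ({i0, v i0, i, v i, j} : Finset (Fin n))
    have h7 := Finset.card_le_card hsub
    have h8 : (univ.filter fun x => ¬ ((G.Adj i x ↔ G.Adj j x) ↔
        decide (j = i0 ∨ j = v i0) = true)).card ≤ M + 6 := by omega
    convert h8

end Pool.Agent.W911.SV
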